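import Mathlib
import Pool.Agent.KS6_70.MM.Two
set_option autoImplicit false

/-! # MP_4814b8_lc, Q1: two colours suffice, with both chromatic memories infinite

`Arena`, `Strategy`, `MemStr`, `GenMem` and `ChrMem` (in `Pool.Agent.KS6_70.MM.Defs`) are the notions
of the problem: finite arenas, strategies on finite paths (the same strategy for all starting
nodes), memory structures with `k` states, and the least number of states of general, respectively
chromatic, memory with which Protagonist plays optimally in every arena. The set of colours is an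
arbitrary type.

The condition, over two colours: a counter in `ℕ` starts at `1`, with `0` absorbing; one colour
decrements it, the other one maps `2` to `0` and every other `n ≥ 1` to `2 n + [n is a square]`.
A word is in `W` if the counter never hits `0`. -/

namespace Pool.Agent.Results.MP_4814b8_lc.TwoColours

open Pool.Agent.KS6_70.MM

/-- `W` is a safety condition: a word outside `W` has a finite prefix all of whose continuations
are outside `W`. -/
def IsSafety {C : Type} (W : Set (ℕ → C)) : Prop :=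
  ∀ w : ℕ → C, w ∉ W → ∃ n : ℕ, ∀ w' : ℕ → C, (∀ i < n, w' i = w i) → w' ∉ W

theorem runFrom_congr {C : Type} (op : C → ℕ → ℕ) (q : ℕ) {w w' : ℕ → C} : ∀ t : ℕ,
    (∀ i < t, w' i = w i) → runFrom op q w' t = runFrom op q w t
  | 0, _ => rfl
  | t + 1, h => by
      change op (w' t) (runFrom op q w' t) = op (w t) (runFrom op q w t)
      rw [h t (Nat.lt_succ_self t), runFrom_congr op q t fun i hi => h i (by omega)]

theorem isSafety_safeW {C : Type} (op : C → ℕ → ℕ) : IsSafety (safeW op) := by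
  intro w hw
  simp only [safeW, Set.mem_ofPred_eq, not_forall, not_not] at hw
  obtain ⟨t, ht⟩ := hw
  refine ⟨t, fun w' h' hw' => hw' t ?_⟩
  rw [runFrom_congr op 1 t h', ht]

theorem chrOK_one {C : Type} [Subsingleton C] (W : Set (ℕ → C)) : ChrOK W 1 := by
  intro A
  have hch : ∀ v : A.V, ∃ e : A.Edge, e ∈ A.E ∧ e.1 = v := fun v => by
    obtain ⟨c, w, h⟩ := A.out v
    exact ⟨_, h, rfl⟩
  choose ch hch using hch
  let m : MemStr A (Fin 1) := ⟨0, fun _ _ => 0⟩
  refine ⟨m, stratOf m (fun v _ => ch v) (fun v _ => hch v), fun _ _ _ _ _ _ => rfl,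
    stratOf_builtOn _ _ _, ?_⟩
  rintro u ⟨S', hS'⟩ e _
  obtain ⟨e', he'⟩ := exists_play' S' u
  have := hS' e' he'
  rwa [Subsingleton.elim (fun i => (e i).2.1) (fun i => (e' i).2.1)]

theorem chrMem_one {C : Type} {W : Set (ℕ → C)} (h : ChrOK W 1) : ChrMem W = 1 := by
  have h1 : ChrMem W ≤ ((1 : ℕ) : ℕ∞) := sInf_le ⟨1, le_rfl, h, rfl⟩
  refine le_antisymm (by exact_mod_cast h1) ?_
  apply le_sInf
  rintro k ⟨n, hn, _, rfl⟩
  exact_mod_cast hn

theorem genMem_lt_two {C : Type} {W : Set (ℕ → C)} (h : GenMem W < 2) : ChrMem W = 1 := by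
  obtain ⟨k, ⟨n, hn, hg, rfl⟩, hk⟩ := sInf_lt_iff.1 h
  have h2 : n < 2 := by exact_mod_cast hk
  have : n = 1 := by omega
  subst this
  exact chrMem_one (genOK_one hg)

theorem exists_two {C : Type} [Nontrivial C] : ∃ W : Set (ℕ → C), IsSafety W ∧
    GenMem W = 2 ∧ GenMem Wᶜ = 2 ∧ ChrMem W = ⊤ ∧ ChrMem Wᶜ = ⊤ := by
  obtain ⟨c₀, c₁, hne⟩ := exists_pair_ne C
  refine ⟨safeW (op2 c₀), isSafety_safeW _,
    genMem_two (genOK_safe (good2 c₀)) (not_chr2 hne.symm 1).1,
    genMem_two (genOK_compl (good2 c₀)) (not_chr2 hne.symm 1).2,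
    chrMem_top fun k _ => (not_chr2 hne.symm k).1, chrMem_top fun k _ => (not_chr2 hne.symm k).2⟩

/-- (1) Over every set of at least two colours there is a safety condition `W` such that `W` and its
complement both have general memory `2` and infinite chromatic memory. (2) For every nonempty set
`C` of colours the following are equivalent: there is `W` with `GenMem W < ∞`, `GenMem Wᶜ < ∞` and
`ChrMem W = ∞`; there is such a `W` with, in addition, `ChrMem Wᶜ = ∞`; `C` has at least two
elements. (3) The value `2` in (1) is the least possible: if `ChrMem W ≠ 1` then `2 ≤ GenMem W`;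
and over one colour `ChrMem W = 1` for all `W`. -/
theorem result :
    (∀ (C : Type) [Nontrivial C], ∃ W : Set (ℕ → C), IsSafety W ∧
      GenMem W = 2 ∧ GenMem Wᶜ = 2 ∧ ChrMem W = ⊤ ∧ ChrMem Wᶜ = ⊤) ∧
    (∀ (C : Type) [Nonempty C],
      ((∃ W : Set (ℕ → C), GenMem W < ⊤ ∧ GenMem Wᶜ < ⊤ ∧ ChrMem W = ⊤) ↔ Nontrivial C) ∧
      ((∃ W : Set (ℕ → C), GenMem W < ⊤ ∧ GenMem Wᶜ < ⊤ ∧ ChrMem W = ⊤ ∧ ChrMem Wᶜ = ⊤) ↔
        Nontrivial C)) ∧
    (∀ (C : Type) (W : Set (ℕ → C)), ChrMem W ≠ 1 → 2 ≤ GenMem W) ∧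
    ∀ (C : Type) [Subsingleton C] (W : Set (ℕ → C)), ChrMem W = 1 := by
  have hone : ∀ (C : Type) [Subsingleton C] (W : Set (ℕ → C)), ChrMem W = 1 :=
    fun C _ W => chrMem_one (chrOK_one W)
  have htop : ∀ (C : Type) (W : Set (ℕ → C)), ChrMem W = ⊤ → Nontrivial C := by
    intro C W h
    by_contra hC
    rw [not_nontrivial_iff_subsingleton] at hC
    rw [hone C W] at h
    exact absurd h (by simp)
  have two : (2 : ℕ∞) < ⊤ := ENat.natCast_lt_top 2
  refine ⟨fun C _ => exists_two, fun C _ => ⟨⟨?_, ?_⟩, ⟨?_, ?_⟩⟩, ?_, hone⟩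
  · rintro ⟨W, _, _, h⟩
    exact htop C W h
  · intro _
    obtain ⟨W, _, h1, h2, h3, _⟩ := exists_two (C := C)
    exact ⟨W, by rw [h1]; exact two, by rw [h2]; exact two, h3⟩
  · rintro ⟨W, _, _, h, _⟩
    exact htop C W h
  · intro _
    obtain ⟨W, _, h1, h2, h3, h4⟩ := exists_two (C := C)
    exact ⟨W, by rw [h1]; exact two, by rw [h2]; exact two, h3, h4⟩
  · intro C W h
    by_contra h2
    exact h (genMem_lt_two (not_le.1 h2))

end Pool.Agent.Results.MP_4814b8_lc.TwoColours
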